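import Pool.Agent.H23.AltOrd

namespace Pool.Agent.Results.MP_719c39_co.Ordering

open Pool.Agent.H23.AltOrd Finset

/-- A directed line: a base point and a nonzero direction. -/
structure DLine where
  base : ℝ × ℝ
  dir : ℝ × ℝ
  dir_ne : dir ≠ 0

/-- The cross product of the direction with `z - base`: positive on the left side, zero on the
line, negative on the right side. -/
def DLine.side (l : DLine) (z : ℝ × ℝ) : ℝ :=
  l.dir.1 * (z.2 - l.base.2) - l.dir.2 * (z.1 - l.base.1)

open Classical in
theorem result (n : ℕ) (p : Fin n → ℝ × ℝ) (_hp : Function.Injective p) (l : Fin n → DLine)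
    (gen : ∀ i j, (l j).side (p i) ≠ 0)
    (hull : ∀ X : Finset (Fin n), X.card - 1 ≤
      (univ.filter fun j => ∃ z ∈ convexHull ℝ (p '' X), (l j).side z = 0).card) :
    ∃ σ τ : Equiv.Perm (Fin n), ∀ (i : ℕ) (hi : i + 1 < n),
      0 < (l (τ ⟨i, by omega⟩)).side (p (σ ⟨i, by omega⟩)) ∧
        (l (τ ⟨i, by omega⟩)).side (p (σ ⟨i + 1, hi⟩)) < 0 := by
  obtain ⟨σ, τ, h⟩ := main (fun j x => 0 < (l j).side (p x)) (by
    intro X
    refine le_trans (by have := hull X; omega) (Nat.add_le_add_right (card_le_card
      (s := univ.filter fun j => ∃ z ∈ convexHull ℝ (p '' X), (l j).side z = 0) ?_) 1)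
    intro j hj
    obtain ⟨z, hz, h0⟩ := (mem_filter.1 hj).2
    have cv : ∀ s : ℝ, (∀ x ∈ X, 0 < s * (l j).side (p x)) → False := by
      intro s hs
      have : Convex ℝ {w : ℝ × ℝ | 0 < s * (l j).side w} := by
        intro u hu v hv a b ha hb hab
        simp only [Set.mem_setOf_eq] at hu hv ⊢
        have e : s * (l j).side (a • u + b • v) =
            a * (s * (l j).side u) + b * (s * (l j).side v) := by
          simp only [DLine.side, Prod.fst_add, Prod.snd_add, Prod.smul_fst, Prod.smul_snd,
            smul_eq_mul]
          obtain rfl : b = 1 - a := by linarith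
          ring
        rw [e]
        rcases ha.eq_or_lt with rfl | ha
        · obtain rfl : b = 1 := by linarith
          simpa using hv
        · positivity
      have := convexHull_min (by rintro _ ⟨x, hx, rfl⟩; exact hs x hx) this hz
      simp [h0] at this
    rw [mem_cut]
    constructor
    · by_contra hh
      push Not at hh
      exact cv (-1) fun x hx => by
        have := lt_of_le_of_ne (hh x hx) (gen x j); linarith
    · by_contra hh
      push Not at hh
      exact cv 1 fun x hx => by simpa using hh x hx)
  exact ⟨σ, τ, fun i hi => ⟨(h i hi).1, lt_of_le_of_ne (not_lt.1 (h i hi).2) (gen _ _)⟩⟩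

end Pool.Agent.Results.MP_719c39_co.Ordering
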